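import Pool.Agent.MWGI.StmtsC

/-!
# MWGI, row MV1: crossing gives the insertion behind a light letter
-/

set_option autoImplicit false

namespace Pool.Agent.MWGI.H30

open Pool.Agent.Helper14_MV Pool.Agent.Helper2_MV Pool.Agent.MVO Pool.Agent.MWL Pool.Agent.MWS
  Pool.Agent.MWH Pool.Agent.MWGI

theorem repc (x : ℕ) (R : List ℕ) : ∀ n : ℕ,
    List.replicate n x ++ x :: R = x :: (List.replicate n x ++ R)
  | 0 => rfl
  | n + 1 => by
    rw [List.replicate_succ, List.cons_append, repc x R n, List.cons_append]

/-- **MV1**. -/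
theorem mv1 : Mv1Stmt := by
  intro n k η hB H pre suf x a ha hC A D hO
  have hx : x ∈ H := by
    by_contra hx
    have h1 := (hO.lt x (by simp) hx).1
    rw [List.count_append, List.count_cons_self, List.count_cons_self] at h1
    omega
  have hxa : x ≠ a := fun e => ha (e ▸ hx)
  have ha' := hO.lt a (by simp) ha
  have h1 := hC (A ++ [x]) D (by
    rw [List.append_assoc]
    exact hO)
  have h2 := hB.it (pre ++ A) [a] [] (D ++ suf) x (by
    intro b hb
    rw [List.append_nil, List.mem_singleton] at hb
    subst hb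
    have h3 : 0 < pre.count b ∨ 0 < suf.count b := by
      rcases ha'.2.2 with h | h
      · exact Or.inl (List.count_pos_iff.2 h)
      · exact Or.inr (List.count_pos_iff.2 h)
    simp only [List.count_append, List.nil_append, List.count_cons, List.count_nil,
      beq_self_eq_true, if_true]
    omega)
  have c1 : ∀ y ∈ H, 2 ≤ (A ++ x :: x :: a :: (List.replicate n x ++ D)).count y := by
    intro y hy
    have h3 := hO.hv y hy
    simp only [List.count_append, List.count_cons] at h3 ⊢
    omega
  have c2 : ∀ b, b ∉ H → (A ++ x :: x :: a :: (List.replicate n x ++ D)).count b =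
      (A ++ x :: x :: a :: D).count b := by
    intro b hbH
    have hbx : x ≠ b := fun e => hbH (e ▸ hx)
    have h4 : (List.replicate n x).count b = 0 :=
      List.count_eq_zero.2 (fun h => hbx (List.eq_of_mem_replicate h).symm)
    simp only [List.count_append, List.count_cons, h4]
    omega
  have hO' : Ok1 k H pre suf (A ++ x :: x :: a :: (List.replicate n x ++ D)) := by
    refine ⟨hO.nd, c1, fun b hb hbH => ?_, hO.muOf c1 c2⟩
    have hb' : b ∈ A ++ x :: x :: a :: D := by
      rw [← List.count_pos_iff] at hb ⊢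
      rw [← c2 b hbH]
      exact hb
    have h3 := hO.lt b hb' hbH
    refine ⟨?_, h3.2⟩
    rw [c2 b hbH]
    exact h3.1
  have h3 := hC (A ++ [x]) (List.replicate n x ++ D) (by
    rw [List.append_assoc]
    exact hO')
  have e2 : pre ++ A ++ x :: ([a] ++ (List.replicate n x ++ ([] ++ x :: (D ++ suf)))) =
      Wd pre suf (A ++ [x] ++ a :: x :: (List.replicate n x ++ D)) := by
    rw [List.nil_append, repc]
    simp [Wd, MWGR.Wd]
  have e1 : pre ++ A ++ x :: ([a] ++ ([] ++ x :: (D ++ suf))) =
      Wd pre suf (A ++ [x] ++ a :: x :: D) := by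
    simp [Wd, MWGR.Wd]
  rw [e1, e2] at h2
  have e3 : A ++ [x] ++ x :: a :: D = A ++ x :: x :: a :: D := by simp
  have e4 : A ++ [x] ++ x :: a :: (List.replicate n x ++ D) =
      A ++ x :: x :: a :: (List.replicate n x ++ D) := by simp
  rw [e3] at h1
  rw [e4] at h3
  exact η.trans h1 (η.trans h2 h3.symm)

end Pool.Agent.MWGI.H30

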