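import Pool.Agent.MWGI.StmtsN

/-! # Row NWL of block MWGI: the left state -/

namespace Pool.Agent.MWGI.H30

open Pool.Agent.Helper14_MV Pool.Agent.Helper2_MV Pool.Agent.MVO Pool.Agent.MWL Pool.Agent.MWS
  Pool.Agent.MWH
open Pool.Agent.MWGI

theorem wzok (n k i p : ℕ) (Z : ℕ → Bool) (u v : ℕ) : BlkOk k (wz n i p Z u v) := by
  intro j _ c hc
  unfold wz at hc
  have h01 : c = 0 ∨ c = 1 := by
    split_ifs at hc
    · rw [List.mem_append, List.mem_cons] at hc
      rcases hc with h | h | h
      · exact Or.inl (List.eq_of_mem_replicate h)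
      · exact Or.inr h
      · exact Or.inl (List.eq_of_mem_replicate h)
    · exact Or.inr (List.mem_singleton.1 hc)
    · exact Or.inl (List.eq_of_mem_replicate hc)
    · exact absurd hc (List.not_mem_nil)
  unfold NS
  omega

theorem insP {n k i p : ℕ} {Z : ℕ → Bool} {θ : FIC} (m : ℕ) {u v u' v' : ℕ}
    (h : Wz n k i p Z u v u' v' (RR θ)) : Wz n k i p Z (m + u) v (m + u') v' (RR θ) := by
  have h1 := rr_ins' θ (fun j => if j = i then X m else []) (fun _ => [])
    (wzok n k i p Z u v) (wzok n k i p Z u' v') h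
  have e : ∀ u v : ℕ, (fun j => (if j = i then X m else []) ++ wz n i p Z u v j ++ []) =
      wz n i p Z (m + u) v := by
    intro u v
    funext j
    unfold wz
    by_cases hj : j = i
    · rw [if_pos hj, if_pos hj, if_pos hj, List.append_nil, ← List.append_assoc]
      rw [← List.replicate_add]
    · rw [if_neg hj, if_neg hj, if_neg hj, List.append_nil, List.nil_append]
  unfold Wz
  rw [← e u v, ← e u' v']
  exact h1

theorem insQ {n k i p : ℕ} {Z : ℕ → Bool} {θ : FIC} (m : ℕ) {u v u' v' : ℕ}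
    (h : Wz n k i p Z u v u' v' (RR θ)) : Wz n k i p Z u (v + m) u' (v' + m) (RR θ) := by
  have h1 := rr_ins' θ (fun _ => []) (fun j => if j = i then X m else [])
    (wzok n k i p Z u v) (wzok n k i p Z u' v') h
  have e : ∀ u v : ℕ, (fun j => [] ++ wz n i p Z u v j ++ (if j = i then X m else [])) =
      wz n i p Z u (v + m) := by
    intro u v
    funext j
    unfold wz
    by_cases hj : j = i
    · rw [if_pos hj, if_pos hj, if_pos hj, List.nil_append, List.append_assoc, List.cons_append,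
        ← List.replicate_add]
    · rw [if_neg hj, if_neg hj, if_neg hj, List.append_nil, List.nil_append]
  unfold Wz
  rw [← e u v, ← e u' v']
  exact h1

theorem nwl (hW : WexStmt) : NwlStmt := by
  intro n k i p θ Z hB hi hp hip v u' v' hv huv hu' h
  have hn := hB.pos
  -- (a)
  have a := insP (2 * n) h
  rw [Nat.add_zero] at a
  -- (b)
  have b : Wz n k i p Z (2 * n + u') v' u' v' (RR θ) := by
    refine hW n k i p θ Z hB hi hp hip _ _ _ _ ?_ (Nat.ModEq.refl _) ?_ (Or.inl rfl)
    · show (2 * n + u') % n = u' % n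
      rw [Nat.mul_comm, Nat.mul_add_mod]
    · right
      by_cases h2 : 2 ≤ u'
      · exact Or.inl ⟨by omega, h2⟩
      · exact Or.inr ⟨by omega, hu', by omega⟩
  have c : Wz n k i p Z (2 * n) v 0 v (RR θ) := θ.trans a (θ.trans b (RR.symm h))
  -- (d)
  have d := insQ ((n - 1) * v + 2 * n) c
  have e0 : v + ((n - 1) * v + 2 * n) = n * v + 2 * n := by
    obtain ⟨m, rfl⟩ : ∃ m, n = m + 1 := ⟨n - 1, by omega⟩
    rw [Nat.add_sub_cancel]
    ring
  rw [e0] at d
  have hm : n * v + 2 * n ≡ 2 * n [MOD n] := by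
    show (n * v + 2 * n) % n = (2 * n) % n
    rw [Nat.mul_add_mod]
  have f : ∀ u : ℕ, Wz n k i p Z u (n * v + 2 * n) u (2 * n) (RR θ) := fun u =>
    hW n k i p θ Z hB hi hp hip _ _ _ _ (Nat.ModEq.refl _) hm (Or.inl rfl)
      (Or.inr (Or.inl ⟨by omega, by omega⟩))
  exact θ.trans (RR.symm (f 0)) (θ.trans (RR.symm d) (f (2 * n)))

end Pool.Agent.MWGI.H30

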